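import Pool.Agent.TH948.SH.Main

set_option autoImplicit false

/-!
# Thresholds for surjective homomorphisms from `G(n,p)` onto a fixed graph: coarse classification

For every finite graph `F` with loops allowed (a symmetric relation `R` on a nonempty finite type
`V`), the threshold for `G(n,p)` to have a surjective homomorphism onto `F` is
* `n^(-2)` if `F` has no edges and no loops;
* `1/n` if `F` has no loops and at least one edge;
* `log n / n` if `F` has a loop and is disconnected;
* of constant order if some looped vertex is adjacent to all vertices;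
* in all other cases between `n^(-1+δ)`, `δ = δ(F) > 0`, and `(log n / n)^(1/|V|)`.
-/

namespace Pool.Agent.Results.MP_65847d_pr.CoarseClassification

open Filter Topology Asymptotics
open Pool.Agent.TH948.SH

theorem result {V : Type} [Fintype V] [Nonempty V] (R : V → V → Prop)
    (hR : ∀ x y, R x y → R y x) :
    ((∀ x y, ¬ R x y) →
      IsThreshold (fun _ G => Onto R G) (fun n => 1 / (n : ℝ) ^ 2)) ∧
    ((∀ x, ¬ R x x) → (∃ x y, R x y) →
      IsThreshold (fun _ G => Onto R G) (fun n => 1 / (n : ℝ))) ∧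
    ((∃ x, R x x) → (¬ ∀ x y, Relation.ReflTransGen R x y) →
      IsThreshold (fun _ G => Onto R G) (fun n => Real.log n / (n : ℝ))) ∧
    ((∃ x, ∀ y, R x y) →
      IsThreshold (fun _ G => Onto R G) (fun _ => 1)) ∧
    ((∃ x, R x x) → (∀ x y, Relation.ReflTransGen R x y) → (¬ ∃ x, ∀ y, R x y) →
      ∃ δ : ℝ, 0 < δ ∧ ∀ p : ℕ → ℝ, (∀ n, 0 ≤ p n ∧ p n ≤ 1) →
        ((∀ᶠ n : ℕ in atTop, p n ≤ (n : ℝ) ^ (-1 + δ)) →
          Tendsto (fun n => gnp n (p n) (fun G => Onto R G)) atTop (𝓝 1)) ∧
        ((fun n : ℕ => (Real.log n / (n : ℝ)) ^ (1 / (Fintype.card V : ℝ))) =o[atTop] p →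
          Tendsto (fun n => gnp n (p n) (fun G => Onto R G)) atTop (𝓝 0))) := by
  refine ⟨part1, part2 hR, part3, part4 hR, fun hl hc hd => ?_⟩
  obtain ⟨δ, hδ, h⟩ := part5_lower hR hl hc
  exact ⟨δ, hδ, fun p hp => ⟨h p hp, part5_upper hR hd Fintype.card_pos p hp⟩⟩

end Pool.Agent.Results.MP_65847d_pr.CoarseClassification
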