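import Pool.Agent.TH948.SH.Cut

set_option autoImplicit false

/-!
# Targets with an independent cut: threshold `(log n / n²)^(1/3)`

Let `F` (a symmetric relation `R` on a finite type `V`, loops allowed) have a looped vertex `l` from
which every vertex is reached by a walk of length two, and a set `X` of unlooped, pairwise
non-adjacent vertices whose removal disconnects `F` (into `Y` and the rest). Then the threshold for
`G(n,p)` to have a surjective homomorphism onto `F` is `(log n / n²)^(1/3)`.
-/

namespace Pool.Agent.Results.MP_65847d_pr.IndependentCut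

open Pool.Agent.TH948.SH

theorem result {V : Type} [Fintype V] (R : V → V → Prop) (hR : ∀ x y, R x y → R y x)
    (l : V) (hl : R l l) (hecc : ∀ x, ∃ y, R l y ∧ R y x)
    (X Y : Set V) (hX : ∀ x ∈ X, ∀ y ∈ X, ¬ R x y) (hY : ∃ y, y ∈ Y) (hZ : ∃ z, z ∉ X ∧ z ∉ Y)
    (hcut : ∀ y ∈ Y, ∀ z, z ∉ X → z ∉ Y → ¬ R y z) :
    IsThreshold (fun _ G => Onto R G)
      (fun n => (Real.log n / (n : ℝ) ^ 2) ^ (1 / 3 : ℝ)) :=
  cut_threshold hR hl hecc hX hY hZ hcut

end Pool.Agent.Results.MP_65847d_pr.IndependentCut
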