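import Pool.Agent.TH948.SH.Common

set_option autoImplicit false

/-!
# Thresholds `(log n / n)^(1/t)`

Let `Y` be a nonempty set of vertices of `F` without a common neighbour. The threshold for `G(n,p)` to
have a surjective homomorphism onto `F` is at most `(log n / n)^(1/|Y|)`, and it is equal to this if
every `y` in `Y` is the only non-neighbour of some (looped) vertex `κ y` outside `Y`. In particular
`(log n / n)^(1/t)` is a threshold for every `t ≥ 1`.
-/

namespace Pool.Agent.Results.MP_65847d_pr.RootThresholds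

open Filter Topology Asymptotics
open Pool.Agent.TH948.SH

theorem result :
    (∀ (V : Type) [Fintype V] (R : V → V → Prop), (∀ x y, R x y → R y x) →
      ∀ Y : Finset V, 1 ≤ Y.card → (∀ x, ∃ y ∈ Y, ¬ R y x) →
      (∀ p : ℕ → ℝ, (∀ n, 0 ≤ p n ∧ p n ≤ 1) →
        (fun n : ℕ => (Real.log n / (n : ℝ)) ^ (1 / (Y.card : ℝ))) =o[atTop] p →
        Tendsto (fun n => gnp n (p n) (fun G => Onto R G)) atTop (𝓝 0)) ∧
      ∀ κ : V → V, (∀ y ∈ Y, κ y ∉ Y) → (∀ y ∈ Y, ∀ x, x ≠ y → R (κ y) x) →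
        IsThreshold (fun _ G => Onto R G)
          (fun n => (Real.log n / (n : ℝ)) ^ (1 / (Y.card : ℝ)))) ∧
    ∀ t : ℕ, 1 ≤ t → ∃ R : Fin t × Bool → Fin t × Bool → Prop, (∀ x y, R x y → R y x) ∧
      IsThreshold (fun _ G => Onto R G) (fun n => (Real.log n / (n : ℝ)) ^ (1 / (t : ℝ))) :=
  ⟨fun _ _ _ hR _ hc hY => ⟨common_upper hc hY, fun _ h1 h2 => common_threshold hR hc hY h1 h2⟩,
    exists_target⟩

end Pool.Agent.Results.MP_65847d_pr.RootThresholds
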